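import Pool.Agent.H20.AG3.EN
import Pool.Agent.H48.AF.WE

/-! CV: covering. -/

set_option autoImplicit false

open Pool.Agent.H38.RB Pool.Agent.H38.PS Pool.Agent.H82.RD Pool.Agent.H38.AE Pool.Agent.H23.AF

namespace Pool.Agent.H20.AG3

theorem RR_pos (x : ℤ) : 1 ≤ RR x := by
  have : 0 < rad x.natAbs := Finset.prod_pos fun p hp => (Nat.prime_of_mem_primeFactors hp).pos
  unfold RR
  exact_mod_cast this

theorem se_mem {H : ℕ} {Z R : ℝ} {a b c : ℤ} {q : ℕ} {Q : ℝ} (ht : (a, b, c) ∈ Tri H) (hq : 1 ≤ q)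
    (hd : (q : ℤ) ∣ c) (hQ : 1 ≤ Q) (hQq : Q ≤ (q : ℝ) * (mx (a, b, c) : ℝ) / |(c : ℝ)|)
    (ha : RR a ≤ R) (hb : RR b ≤ R) (hZ : (rad q : ℝ) * w5 Q R ≤ Z) :
    (a, b, c) ∈ SE2 H Z := by
  obtain ⟨w1, w2, w3, w4⟩ := Pool.Agent.H48.AF.pf_WE
  refine ⟨ht, q, hq, hd, le_trans ?_ hZ⟩
  have hQ' : 1 ≤ (q : ℝ) * (mx (a, b, c) : ℝ) / |(c : ℝ)| := hQ.trans hQq
  have hR1 : 1 ≤ R := (RR_pos a).trans ha
  have e1 : w5 ((q : ℝ) * (mx (a, b, c) : ℝ) / |(c : ℝ)|) (RR a) ≤ w5 Q R :=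
    (w2 _ _ _ hQ' (RR_pos a) ha).trans (w3 _ _ _ hQ hR1 hQq)
  have e2 : w5 ((q : ℝ) * (mx (a, b, c) : ℝ) / |(c : ℝ)|) (RR b) ≤ w5 Q R :=
    (w2 _ _ _ hQ' (RR_pos b) hb).trans (w3 _ _ _ hQ hR1 hQq)
  have hW : ∀ Q' R' : ℝ, 1 ≤ Q' → 1 ≤ R' → 0 ≤ w5 Q' R' := by
    intro Q' R' h1 h2
    unfold w5
    positivity
  have h0 : 0 ≤ w5 Q R := hW _ _ hQ hR1
  apply mul_le_mul_of_nonneg_left _ (Nat.cast_nonneg _)
  calc Real.sqrt (w5 ((q : ℝ) * (mx (a, b, c) : ℝ) / |(c : ℝ)|) (RR a) *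
        w5 ((q : ℝ) * (mx (a, b, c) : ℝ) / |(c : ℝ)|) (RR b))
      ≤ Real.sqrt (w5 Q R * w5 Q R) :=
        Real.sqrt_le_sqrt (mul_le_mul e1 e2 (hW _ _ hQ' (RR_pos b)) h0)
    _ = w5 Q R := Real.sqrt_mul_self h0

theorem core {X k : ℝ} {a b c : ℤ} (hX : 1 < X) (hk : 0 < k) (hk1 : k ≤ 1 / 1000)
    (h4 : 4 ≤ X ^ k) (ht : (a, b, c) ∈ Tri ⌊X⌋₊) (ha : RR a ≤ X ^ (1 / 3 + 2 * k))
    (hb : RR b ≤ X ^ (1 / 3 + 2 * k)) (hc : RR c ≤ X ^ (1 / 3 + 2 * k))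
    (hm : X ^ (1 / 3 + 100 * k) ≤ (mx (a, b, c) : ℝ)) :
    (a, b, c) ∈ SE2 ⌊X⌋₊ (X ^ (2 / 3 - 2 * k)) ∨
    ∃ p v m : ℕ, p.Prime ∧ 2 ≤ v ∧ c.natAbs = p ^ v * m ∧ X ^ (1 / 3 - 10 * k) ≤ (p : ℝ) ∧
      ¬ p ∣ m := by
  have hX0 : 0 < X := by linarith
  have hc0 : c ≠ 0 := ht.2.2.1
  have hcn : 1 ≤ c.natAbs := Nat.pos_of_ne_zero (Int.natAbs_ne_zero.2 hc0)
  have hcr : (c.natAbs : ℝ) = |(c : ℝ)| := by rw [Nat.cast_natAbs, Int.cast_abs]
  have hcpos : 0 < |(c : ℝ)| := by rw [← hcr]; exact_mod_cast hcn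
  have hmc : |(c : ℝ)| ≤ (mx (a, b, c) : ℝ) := by
    rw [← Int.cast_abs]
    exact_mod_cast (show |c| ≤ mx (a, b, c) from (le_max_right _ _).trans (le_max_right _ _))
  rcases le_or_gt (|(c : ℝ)| * X ^ (50 * k)) (mx (a, b, c) : ℝ) with h | h
  · left
    have hQ : 1 ≤ X ^ (50 * k) := Real.one_le_rpow hX.le (by linarith)
    refine se_mem (q := 1) (Q := X ^ (50 * k)) (R := X ^ (1 / 3 + 2 * k)) ht le_rfl (by simp) hQ ?_
      ha hb ?_
    · rw [le_div_iff₀ hcpos]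
      push_cast
      linarith
    · have hq0 : 0 < X ^ (50 * k) := by positivity
      have e1 : lg X 1 = 0 := by unfold lg; simp
      have e2 : lg X (X ^ (50 * k)) = 50 * k := by
        unfold lg
        rw [Real.log_rpow hX0]
        field_simp [(Real.log_pos hX).ne']
      have := good (k := k) (r := 1) (q := X ^ (50 * k)) hX h4 one_pos hq0 (by rw [e1]; linarith)
        (by rw [e1, e2]; linarith) (by rw [e1, e2]; linarith) (by rw [e1, e2]; linarith)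
      have hr : rad 1 = 1 := by simp [rad]
      rw [hr]
      exact_mod_cast this
  · rcases pf_EN X k c.natAbs hX hk hk1 h4 hcn hc with h1 | ⟨q, hq1, hq, hqZ⟩ | h1
    · exfalso
      rw [hcr] at h1
      have h2 : (mx (a, b, c) : ℝ) < X ^ (1 / 3 + 12 * k) * X ^ (50 * k) :=
        lt_of_lt_of_le h (mul_le_mul_of_nonneg_right h1 (by positivity))
      rw [← Real.rpow_add hX0] at h2
      have h3 := hm.trans h2.le
      rw [Real.rpow_le_rpow_left_iff hX] at h3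
      linarith
    · left
      refine se_mem (q := q) (Q := q) (R := X ^ (1 / 3 + 2 * k)) ht hq1
        (Int.natCast_dvd.2 hq) (by exact_mod_cast hq1) ?_ ha hb hqZ
      rw [le_div_iff₀ hcpos]
      exact mul_le_mul_of_nonneg_left hmc (Nat.cast_nonneg _)
    · exact Or.inr h1

theorem big {X k : ℝ} {a : ℤ} {p v m : ℕ} (hX : 1 < X) (hk : 0 < k) (hk1 : k ≤ 1 / 1000)
    (ha0 : a ≠ 0) (haX : |(a : ℝ)| ≤ X) (ha : RR a ≤ X ^ (1 / 3 + 2 * k)) (hp : p.Prime)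
    (hv : 2 ≤ v) (ham : a.natAbs = p ^ v * m) (hpX : X ^ (1 / 3 - 10 * k) ≤ (p : ℝ))
    (hpm : ¬ p ∣ m) :
    ∃ a' : ℤ, a = a' * (p : ℤ) ^ v ∧ RR a' ≤ X ^ (12 * k) ∧ v ≤ 3 ∧
      (p : ℝ) ≤ X ^ (1 / 3 + 2 * k) := by
  have hX0 : 0 < X := by linarith
  have hm0 : m ≠ 0 := by
    rintro rfl
    exact ha0 (Int.natAbs_eq_zero.1 (by rw [ham, mul_zero]))
  have hp0 : (0 : ℝ) < p := by exact_mod_cast hp.pos
  have hrad : rad a.natAbs = p * rad m := by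
    rw [ham]
    have hcop : (p ^ v).Coprime m := ((Nat.Prime.coprime_iff_not_dvd hp).2 hpm).pow_left v
    unfold rad
    rw [hcop.primeFactors_mul, Finset.prod_union hcop.disjoint_primeFactors,
      Nat.primeFactors_prime_pow (by omega) hp, Finset.prod_singleton]
  have hm1 : (1 : ℝ) ≤ rad m := by
    have : 0 < rad m := Finset.prod_pos fun p hp => (Nat.prime_of_mem_primeFactors hp).pos
    exact_mod_cast this
  have hRa : RR a = p * rad m := by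
    unfold RR
    rw [hrad]
    push_cast
    ring
  refine ⟨a.sign * m, ?_, ?_, ?_, ?_⟩
  · calc a = a.sign * a.natAbs := (Int.sign_mul_natAbs a).symm
      _ = a.sign * m * (p : ℤ) ^ v := by rw [ham]; push_cast; ring
  · have h1 : (a.sign * (m : ℤ)).natAbs = m := by
      rw [Int.natAbs_mul, Int.natAbs_sign_of_ne_zero ha0, one_mul, Int.natAbs_natCast]
    unfold RR
    rw [h1]
    have h2 : X ^ (1 / 3 - 10 * k) * (rad m : ℝ) ≤ X ^ (1 / 3 + 2 * k) :=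
      (mul_le_mul_of_nonneg_right hpX (by linarith)).trans (hRa ▸ ha)
    have h3 : X ^ (1 / 3 + 2 * k) = X ^ (1 / 3 - 10 * k) * X ^ (12 * k) := by
      rw [← Real.rpow_add hX0]
      congr 1
      ring
    rw [h3] at h2
    exact le_of_mul_le_mul_left h2 (by positivity)
  · by_contra hcon
    push Not at hcon
    have h1 : ((p ^ v : ℕ) : ℝ) ≤ X := by
      refine le_trans ?_ haX
      rw [← Int.cast_abs, ← Nat.cast_natAbs]
      exact_mod_cast (show p ^ v ≤ a.natAbs by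
        rw [ham]
        exact Nat.le_mul_of_pos_right _ (Nat.pos_of_ne_zero hm0))
    have h2 : (p : ℝ) ^ 4 ≤ ((p ^ v : ℕ) : ℝ) := by
      exact_mod_cast Nat.pow_le_pow_right hp.pos (show 4 ≤ v by omega)
    have h3 : (X ^ (1 / 3 - 10 * k)) ^ 4 ≤ (p : ℝ) ^ 4 :=
      pow_le_pow_left₀ (by positivity) hpX 4
    have h4 : (X ^ (1 / 3 - 10 * k)) ^ 4 = X ^ (4 / 3 - 40 * k) := by
      rw [← Real.rpow_natCast, ← Real.rpow_mul hX0.le]
      congr 1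
      push_cast
      ring
    have h5 : X ^ (4 / 3 - 40 * k) ≤ X ^ (1 : ℝ) := by
      rw [Real.rpow_one, ← h4]
      exact h3.trans (h2.trans h1)
    rw [Real.rpow_le_rpow_left_iff hX] at h5
    linarith
  · calc (p : ℝ) = p * 1 := (mul_one _).symm
      _ ≤ p * rad m := mul_le_mul_of_nonneg_left hm1 hp0.le
      _ ≤ X ^ (1 / 3 + 2 * k) := hRa ▸ ha

theorem pd_eq (x : Fin 3 → ℤ) (hx : Pool.Agent.H38.RB.Adm x) :
    (pd (pr x).primeFactors : ℝ) = RR (x 0) * RR (x 1) * RR (x 2) := by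
  obtain ⟨h0, hc, -⟩ := hx
  have c01 : (x 0).natAbs.Coprime (x 1).natAbs := Int.isCoprime_iff_gcd_eq_one.1 (hc 0 1 (by decide))
  have c02 : (x 0).natAbs.Coprime (x 2).natAbs := Int.isCoprime_iff_gcd_eq_one.1 (hc 0 2 (by decide))
  have c12 : (x 1).natAbs.Coprime (x 2).natAbs := Int.isCoprime_iff_gcd_eq_one.1 (hc 1 2 (by decide))
  have c3 : ((x 0).natAbs * (x 1).natAbs).Coprime (x 2).natAbs := Nat.Coprime.mul_left c02 c12
  unfold pd pr RR rad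
  rw [Int.natAbs_mul, Int.natAbs_mul, c3.primeFactors_mul,
    Finset.prod_union c3.disjoint_primeFactors, c01.primeFactors_mul,
    Finset.prod_union c01.disjoint_primeFactors]
  push_cast
  ring

end Pool.Agent.H20.AG3
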