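import Pool.Agent.H20.AG3.CV

/-! CV: covering, conclusion. -/

set_option autoImplicit false

open Pool.Agent.H38.RB Pool.Agent.H38.PS Pool.Agent.H82.RD Pool.Agent.H38.AE Pool.Agent.H23.AF

namespace Pool.Agent.H20.AG3

theorem pf_CV : T_CV := by
  rintro X k x hX hk hk1 h4 ⟨hA, hr, hl, hh, hhX⟩
  have hX0 : 0 < X := by linarith
  have hA' := hA
  obtain ⟨h0, hc, hs⟩ := hA
  have hRR : ∀ i, X ^ (1 / 3 - k) ≤ RR (x i) := hl
  rw [pd_eq x hA'] at hr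
  have hY0 : 0 < X ^ (1 / 3 - k) := by positivity
  have e1 : X = X ^ (1 / 3 - k) * X ^ (1 / 3 - k) * X ^ (1 / 3 + 2 * k) := by
    rw [← Real.rpow_add hX0, ← Real.rpow_add hX0]
    conv_lhs => rw [← Real.rpow_one X]
    congr 1
    ring
  have up : ∀ r s t : ℝ, X ^ (1 / 3 - k) ≤ s → X ^ (1 / 3 - k) ≤ t → 0 ≤ r → r * s * t ≤ X →
      r ≤ X ^ (1 / 3 + 2 * k) := by
    intro r s t h1 h2 h3 h5
    have h6 : r * X ^ (1 / 3 - k) * X ^ (1 / 3 - k) ≤ r * s * t :=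
      mul_le_mul (mul_le_mul_of_nonneg_left h1 h3) h2 hY0.le (mul_nonneg h3 (hY0.le.trans h1))
    have h7 : r * (X ^ (1 / 3 - k) * X ^ (1 / 3 - k)) ≤
        X ^ (1 / 3 + 2 * k) * (X ^ (1 / 3 - k) * X ^ (1 / 3 - k)) := by
      calc r * (X ^ (1 / 3 - k) * X ^ (1 / 3 - k))
          = r * X ^ (1 / 3 - k) * X ^ (1 / 3 - k) := by ring
        _ ≤ X := h6.trans h5
        _ = X ^ (1 / 3 + 2 * k) * (X ^ (1 / 3 - k) * X ^ (1 / 3 - k)) := by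
          conv_lhs => rw [e1]
          ring
    exact le_of_mul_le_mul_right h7 (by positivity)
  have u0 : RR (x 0) ≤ X ^ (1 / 3 + 2 * k) :=
    up _ _ _ (hRR 1) (hRR 2) (by linarith [RR_pos (x 0)]) hr
  have u1 : RR (x 1) ≤ X ^ (1 / 3 + 2 * k) :=
    up _ _ _ (hRR 0) (hRR 2) (by linarith [RR_pos (x 1)]) (by linarith)
  have u2 : RR (x 2) ≤ X ^ (1 / 3 + 2 * k) :=
    up _ _ _ (hRR 0) (hRR 1) (by linarith [RR_pos (x 2)]) (by linarith)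
  have hb : ∀ i, |x i| ≤ (⌊X⌋₊ : ℤ) := by
    intro i
    have h1 : (x i).natAbs ≤ ht x := by
      unfold ht
      fin_cases i
      · exact le_max_left _ _
      · exact (le_max_left _ _).trans (le_max_right _ _)
      · exact (le_max_right _ _).trans (le_max_right _ _)
    have h2 : ht x ≤ ⌊X⌋₊ := Nat.le_floor hhX
    rw [Int.abs_eq_natAbs]
    exact_mod_cast h1.trans h2
  have hbX : ∀ i, |(x i : ℝ)| ≤ X := by
    intro i
    calc |(x i : ℝ)| = ((|x i| : ℤ) : ℝ) := by rw [Int.cast_abs]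
      _ ≤ (((⌊X⌋₊ : ℕ) : ℤ) : ℝ) := by exact_mod_cast hb i
      _ = ((⌊X⌋₊ : ℕ) : ℝ) := by push_cast; rfl
      _ ≤ X := Nat.floor_le hX0.le
  have hmx : ∀ a b c : ℤ, (ht x : ℤ) = mx (a, b, c) → X ^ (1 / 3 + 100 * k) ≤
      (mx (a, b, c) : ℝ) := by
    intro a b c h
    rw [← h]
    exact_mod_cast hh
  have m0 : (ht x : ℤ) = mx (x 0, x 1, x 2) := by unfold ht mx; push_cast; rfl
  have m1 : (ht x : ℤ) = mx (x 1, x 2, x 0) := by
    rw [m0]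
    unfold mx
    rw [max_comm, max_assoc]
  have m2 : (ht x : ℤ) = mx (x 2, x 0, x 1) := by
    rw [m0]
    unfold mx
    rw [← max_assoc, max_comm]
  have t0 : (x 0, x 1, x 2) ∈ Tri ⌊X⌋₊ := ⟨h0 0, h0 1, h0 2, hc 0 1 (by decide), hc 0 2 (by decide),
    hc 1 2 (by decide), hs, hb 0, hb 1, hb 2⟩
  have t1 : (x 1, x 2, x 0) ∈ Tri ⌊X⌋₊ := ⟨h0 1, h0 2, h0 0, hc 1 2 (by decide), hc 1 0 (by decide),
    hc 2 0 (by decide), by linarith, hb 1, hb 2, hb 0⟩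
  have t2 : (x 2, x 0, x 1) ∈ Tri ⌊X⌋₊ := ⟨h0 2, h0 0, h0 1, hc 2 0 (by decide), hc 2 1 (by decide),
    hc 0 1 (by decide), by linarith, hb 2, hb 0, hb 1⟩
  rcases core hX hk hk1 h4 t1 u1 u2 u0 (hmx _ _ _ m1) with g | ⟨p, v, m, hp, hv, ham, hpX, hpm⟩
  · exact ⟨x 1, x 2, x 0, Or.inl g, by tauto⟩
  rcases core hX hk hk1 h4 t2 u2 u0 u1 (hmx _ _ _ m2) with g | ⟨p', v', m', hp', hv', ham', hpX', hpm'⟩
  · exact ⟨x 2, x 0, x 1, Or.inl g, by tauto⟩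
  obtain ⟨a, ha1, ha2, ha3, ha4⟩ := big hX hk hk1 (h0 0) (hbX 0) u0 hp hv ham hpX hpm
  obtain ⟨b, hb1, hb2, hb3, hb4⟩ := big hX hk hk1 (h0 1) (hbX 1) u1 hp' hv' ham' hpX' hpm'
  refine ⟨x 0, x 1, x 2, Or.inr ⟨t0, a, b, p, p', v, v', hp.one_lt.le, hp'.one_lt.le, hv, ha3, hv',
    hb3, ha1, hb1, ?_⟩, by tauto⟩
  have hv2 : (2 : ℝ) ≤ v' := by exact_mod_cast hv'
  have hp1 : (1 : ℝ) ≤ p := by exact_mod_cast hp.one_lt.le
  have e2 : (p : ℝ) ^ ((1 : ℝ) / v') ≤ X ^ (1 / 6 + k) := by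
    calc (p : ℝ) ^ ((1 : ℝ) / v') ≤ (p : ℝ) ^ ((1 : ℝ) / 2) :=
          Real.rpow_le_rpow_of_exponent_le hp1 (one_div_le_one_div_of_le (by norm_num) hv2)
      _ ≤ (X ^ (1 / 3 + 2 * k)) ^ ((1 : ℝ) / 2) := Real.rpow_le_rpow (by linarith) ha4 (by norm_num)
      _ = X ^ (1 / 6 + k) := by
        rw [← Real.rpow_mul hX0.le]
        congr 1
        ring
  have q1 := RR_pos a
  have q2 := RR_pos b
  have q3 := RR_pos (x 2)
  calc RR a * RR b * RR (x 2) * (p : ℝ) ^ ((1 : ℝ) / v')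
      ≤ X ^ (12 * k) * X ^ (12 * k) * X ^ (1 / 3 + 2 * k) * X ^ (1 / 6 + k) := by
        gcongr
    _ = X ^ (1 / 2 + 27 * k) := by
        rw [← Real.rpow_add hX0, ← Real.rpow_add hX0, ← Real.rpow_add hX0]
        congr 1
        ring
    _ ≤ X ^ (2 / 3 - 2 * k) := Real.rpow_le_rpow_of_exponent_le hX.le (by linarith)

theorem mid_sub_tri (X k : ℝ) : ∀ x ∈ Mid X k, (x 0, x 1, x 2) ∈ Tri ⌊X⌋₊ := by
  rintro x ⟨⟨h0, hc, hs⟩, -, -, -, hhX⟩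
  have hb : ∀ i, |x i| ≤ (⌊X⌋₊ : ℤ) := by
    intro i
    have h1 : (x i).natAbs ≤ ht x := by
      unfold ht
      fin_cases i
      · exact le_max_left _ _
      · exact (le_max_left _ _).trans (le_max_right _ _)
      · exact (le_max_right _ _).trans (le_max_right _ _)
    have h2 : ht x ≤ ⌊X⌋₊ := Nat.le_floor hhX
    rw [Int.abs_eq_natAbs]
    exact_mod_cast h1.trans h2
  exact ⟨h0 0, h0 1, h0 2, hc 0 1 (by decide), hc 0 2 (by decide),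
    hc 1 2 (by decide), hs, hb 0, hb 1, hb 2⟩

end Pool.Agent.H20.AG3
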