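import Pool.Agent.H20.AG3.NW

/-! EN: the structure of one entry. -/

set_option autoImplicit false

open Pool.Agent.H38.RB Pool.Agent.H38.PS Pool.Agent.H82.RD Pool.Agent.H38.AE

namespace Pool.Agent.H20.AG3

/-- Logarithm to the base `X`. -/
noncomputable def lg (X t : ℝ) : ℝ := Real.log t / Real.log X

theorem rpow_lg {X t : ℝ} (hX : 1 < X) (ht : 0 < t) : X ^ lg X t = t := by
  have hl : 0 < Real.log X := Real.log_pos hX
  unfold lg
  rw [Real.rpow_def_of_pos (by linarith), mul_div_cancel₀ _ hl.ne', Real.exp_log ht]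

theorem le_lg {X t s : ℝ} (hX : 1 < X) (ht : 0 < t) : X ^ s ≤ t ↔ s ≤ lg X t := by
  rw [← Real.rpow_le_rpow_left_iff hX (y := s), rpow_lg hX ht]

theorem lg_le {X t s : ℝ} (hX : 1 < X) (ht : 0 < t) : t ≤ X ^ s ↔ lg X t ≤ s := by
  rw [← Real.rpow_le_rpow_left_iff hX (z := s), rpow_lg hX ht]

theorem lg_lt {X t s : ℝ} (hX : 1 < X) (ht : 0 < t) : t < X ^ s ↔ lg X t < s := by
  rw [← Real.rpow_lt_rpow_left_iff hX (z := s), rpow_lg hX ht]

theorem lg_mul {X s t : ℝ} (hs : 0 < s) (ht : 0 < t) : lg X (s * t) = lg X s + lg X t := by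
  unfold lg
  rw [Real.log_mul hs.ne' ht.ne', add_div]

theorem lg_pow {X s : ℝ} (n : ℕ) : lg X (s ^ n) = n * lg X s := by
  unfold lg
  rw [Real.log_pow, mul_div_assoc]

theorem lg_nonneg {X s : ℝ} (hX : 1 < X) (hs : 1 ≤ s) : 0 ≤ lg X s :=
  div_nonneg (Real.log_nonneg hs) (Real.log_nonneg hX.le)

theorem lg_mono {X s t : ℝ} (hX : 1 < X) (hs : 0 < s) (h : s ≤ t) : lg X s ≤ lg X t :=
  div_le_div_of_nonneg_right (Real.log_le_log hs h) (Real.log_nonneg hX.le)

theorem good {X k q r : ℝ} (hX : 1 < X) (h4 : 4 ≤ X ^ k) (hr : 0 < r) (hq : 0 < q)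
    (a1 : lg X r + (1 / 3 + 2 * k) ≤ 2 / 3 - 3 * k)
    (a2 : lg X r + 2 * (1 / 3 + 2 * k) - lg X q ≤ 2 / 3 - 3 * k)
    (a3 : lg X r + 9 / 5 * (1 / 3 + 2 * k) - 3 / 5 * lg X q ≤ 2 / 3 - 3 * k)
    (a4 : lg X r + 7 / 5 * (1 / 3 + 2 * k) - 1 / 5 * lg X q ≤ 2 / 3 - 3 * k) :
    r * Pool.Agent.H23.AF.w5 q (X ^ (1 / 3 + 2 * k)) ≤ X ^ (2 / 3 - 2 * k) := by
  have hX0 : 0 < X := by linarith
  have h := pf_NW X (1 / 3 + 2 * k) (lg X r) (lg X q) (2 / 3 - 3 * k) hX.le a1 a2 a3 a4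
  rw [rpow_lg hX hr, rpow_lg hX hq] at h
  refine h.trans ?_
  have e : X ^ (2 / 3 - 2 * k) = X ^ k * X ^ (2 / 3 - 3 * k) := by
    rw [← Real.rpow_add hX0]
    congr 1
    ring
  rw [e]
  exact mul_le_mul_of_nonneg_right h4 (by positivity)

theorem rad_prod (G : Finset ℕ) (v : ℕ → ℕ) (hG : ∀ p ∈ G, p.Prime) (hv : ∀ p ∈ G, 1 ≤ v p) :
    rad (∏ p ∈ G, p ^ v p) = ∏ p ∈ G, p := by
  have h : (∏ p ∈ G, p ^ v p).primeFactors = G := by
    ext q
    rw [Nat.mem_primeFactors]
    constructor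
    · rintro ⟨hq, hd, _⟩
      obtain ⟨p, hp, hqp⟩ := (Prime.dvd_finsetProd_iff hq.prime _).1 hd
      rw [(Nat.prime_dvd_prime_iff_eq hq (hG p hp)).1 (hq.dvd_of_dvd_pow hqp)]
      exact hp
    · intro hq
      refine ⟨hG q hq, ?_, Finset.prod_ne_zero_iff.2 fun p hp => pow_ne_zero _ (hG p hp).ne_zero⟩
      exact (dvd_pow_self q (by have := hv q hq; omega)).trans
        (Finset.dvd_prod_of_mem (fun p => p ^ v p) hq)
  unfold rad
  rw [h]

theorem rad_pow (p v : ℕ) (hp : p.Prime) (hv : 1 ≤ v) : rad (p ^ v) = p := by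
  have := rad_prod {p} (fun _ => v) (by simpa using hp) (by simpa using hv)
  simpa using this

/-- A set of primes with the right excess. -/
theorem greedy (S : Finset ℕ) (v : ℕ → ℕ) (Y : ℝ) (hS : ∀ p ∈ S, 1 ≤ p) (hY : 1 < Y)
    (hv : ∀ p ∈ S, 2 ≤ v p) (hSY : ∀ p ∈ S, (p : ℝ) ≤ Y)
    (h : Y ≤ ((∏ p ∈ S, p ^ (v p - 1) : ℕ) : ℝ)) :
    ∃ G ⊆ S, Y ≤ ((∏ p ∈ G, p ^ (v p - 1) : ℕ) : ℝ) ∧ ((∏ p ∈ G, p : ℕ) : ℝ) ≤ Y * Y := by
  classical
  obtain ⟨G, hG, hmin⟩ := Finset.exists_min_image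
    (S.powerset.filter fun G => Y ≤ ((∏ p ∈ G, p ^ (v p - 1) : ℕ) : ℝ)) Finset.card
    ⟨S, Finset.mem_filter.2 ⟨Finset.mem_powerset.2 (Finset.Subset.refl _), h⟩⟩
  rw [Finset.mem_filter, Finset.mem_powerset] at hG
  refine ⟨G, hG.1, hG.2, ?_⟩
  have hne : G.Nonempty := by
    rw [Finset.nonempty_iff_ne_empty]
    rintro rfl
    have := hG.2
    simp at this
    linarith
  obtain ⟨p, hp⟩ := hne
  have hlt : ((∏ l ∈ G.erase p, l ^ (v l - 1) : ℕ) : ℝ) < Y := by
    by_contra hcon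
    push Not at hcon
    have := hmin (G.erase p) (by
      rw [Finset.mem_filter, Finset.mem_powerset]
      exact ⟨(Finset.erase_subset _ _).trans hG.1, hcon⟩)
    rw [Finset.card_erase_of_mem hp] at this
    have : 0 < G.card := Finset.card_pos.2 ⟨p, hp⟩
    omega
  have hle : ((∏ l ∈ G.erase p, l : ℕ) : ℝ) ≤ ((∏ l ∈ G.erase p, l ^ (v l - 1) : ℕ) : ℝ) := by
    exact_mod_cast Finset.prod_le_prod' fun l hl => by
      have hl' := hG.1 (Finset.mem_of_mem_erase hl)
      have h2 := hv l hl'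
      calc l = l ^ 1 := (pow_one l).symm
        _ ≤ l ^ (v l - 1) := Nat.pow_le_pow_right (hS l hl') (by omega)
  rw [← Finset.mul_prod_erase G (fun l => l) hp]
  push_cast
  have hpY : (p : ℝ) ≤ Y := hSY p (hG.1 hp)
  have h0 : (0 : ℝ) ≤ ((∏ l ∈ G.erase p, l : ℕ) : ℝ) := Nat.cast_nonneg _
  have h3 : ((∏ l ∈ G.erase p, l : ℕ) : ℝ) ≤ Y := hle.trans hlt.le
  push_cast at h0 h3
  exact mul_le_mul hpY h3 h0 (by linarith)

theorem pf_EN : T_EN := by
  intro X k n hX hk hk1 h4 hn hR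
  classical
  have hX0 : 0 < X := by linarith
  have hn0 : n ≠ 0 := by omega
  by_cases hB : ∃ p ∈ n.primeFactors, 2 ≤ n.factorization p ∧ X ^ (10 * k) ≤ (p : ℝ)
  · obtain ⟨p, hp, hv, hpX⟩ := hB
    have hpp := Nat.prime_of_mem_primeFactors hp
    have hp0 : (0 : ℝ) < p := by exact_mod_cast hpp.pos
    rcases le_or_gt (X ^ (1 / 3 - 10 * k)) (p : ℝ) with hlarge | hsmall
    · refine Or.inr (Or.inr ⟨p, n.factorization p, n / p ^ n.factorization p, hpp, hv,
        (Nat.ordProj_mul_ordCompl_eq_self n p).symm, hlarge, Nat.not_dvd_ordCompl hpp hn0⟩)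
    · refine Or.inr (Or.inl ⟨p ^ n.factorization p, Nat.pos_of_ne_zero (pow_ne_zero _ hpp.ne_zero),
        Nat.ordProj_dvd n p, ?_⟩)
      rw [rad_pow p _ hpp (by omega)]
      have b1 : 10 * k ≤ lg X p := (le_lg hX hp0).1 hpX
      have b2 : lg X p < 1 / 3 - 10 * k := (lg_lt hX hp0).1 hsmall
      have b3 : lg X ((p ^ n.factorization p : ℕ) : ℝ) = n.factorization p * lg X p := by
        push_cast
        exact lg_pow _
      have b4 : 2 * lg X p ≤ lg X ((p ^ n.factorization p : ℕ) : ℝ) := by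
        rw [b3]
        have : (2 : ℝ) ≤ (n.factorization p : ℝ) := by exact_mod_cast hv
        nlinarith
      apply good hX h4 hp0 (by exact_mod_cast Nat.pos_of_ne_zero (pow_ne_zero _ hpp.ne_zero))
      · linarith
      · linarith
      · linarith
      · linarith
  · push Not at hB
    obtain ⟨S, hSdef⟩ : ∃ S, S = n.primeFactors.filter fun p => 2 ≤ n.factorization p := ⟨_, rfl⟩
    have hSm : ∀ p ∈ S, p.Prime ∧ 2 ≤ n.factorization p ∧ (p : ℝ) < X ^ (10 * k) := by
      intro p hp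
      rw [hSdef, Finset.mem_filter] at hp
      exact ⟨Nat.prime_of_mem_primeFactors hp.1, hp.2, hB p hp.1 hp.2⟩
    have hnS : n = rad n * ∏ p ∈ S, p ^ (n.factorization p - 1) := by
      have h1 : ∏ p ∈ S, p ^ (n.factorization p - 1) =
          ∏ p ∈ n.primeFactors, p ^ (n.factorization p - 1) := by
        rw [hSdef]
        apply Finset.prod_subset (Finset.filter_subset _ _)
        intro p hp hp2
        rw [Finset.mem_filter, not_and] at hp2
        have h2 := hp2 hp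
        have h3 : n.factorization p - 1 = 0 := by omega
        rw [h3, pow_zero]
      rw [h1]
      unfold rad
      rw [← Finset.prod_mul_distrib]
      conv_lhs => rw [← Nat.prod_factorization_pow_eq_self hn0]
      unfold Finsupp.prod
      rw [Nat.support_factorization]
      apply Finset.prod_congr rfl
      intro p hp
      have h3 : 1 ≤ n.factorization p :=
        (Nat.prime_of_mem_primeFactors hp).factorization_pos_of_dvd hn0
          (Nat.dvd_of_mem_primeFactors hp)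
      rw [← pow_succ', Nat.sub_add_cancel h3]
    have hY1 : 1 < X ^ (10 * k) := Real.one_lt_rpow hX (by linarith)
    rcases lt_or_ge ((∏ p ∈ S, p ^ (n.factorization p - 1) : ℕ) : ℝ) (X ^ (10 * k)) with hs | hs
    · left
      rw [hnS]
      push_cast
      push_cast at hs
      calc (rad n : ℝ) * ∏ p ∈ S, (p : ℝ) ^ (n.factorization p - 1)
          ≤ X ^ (1 / 3 + 2 * k) * X ^ (10 * k) := by
            apply mul_le_mul hR hs.le (by positivity) (by positivity)
        _ = X ^ (1 / 3 + 12 * k) := by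
            rw [← Real.rpow_add hX0]
            congr 1
            ring
    · obtain ⟨G, hGS, hG1, hG2⟩ := greedy S n.factorization (X ^ (10 * k))
        (fun p hp => (hSm p hp).1.one_lt.le) hY1 (fun p hp => (hSm p hp).2.1)
        (fun p hp => (hSm p hp).2.2.le) hs
      have hGp : ∀ p ∈ G, p.Prime := fun p hp => (hSm p (hGS hp)).1
      have hq0 : 0 < ∏ p ∈ G, p ^ n.factorization p :=
        Finset.prod_pos fun p hp => pow_pos (hGp p hp).pos _
      refine Or.inr (Or.inl ⟨∏ p ∈ G, p ^ n.factorization p, hq0, ?_, ?_⟩)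
      · have hsub : G ⊆ n.primeFactors := hGS.trans (by rw [hSdef]; exact Finset.filter_subset _ _)
        conv_rhs => rw [← Nat.prod_factorization_pow_eq_self hn0]
        unfold Finsupp.prod
        rw [Nat.support_factorization]
        exact Finset.prod_dvd_prod_of_subset _ _ _ hsub
      · rw [rad_prod G _ hGp fun p hp => by have := (hSm p (hGS hp)).2.1; omega]
        have hr0 : (0 : ℝ) < ((∏ p ∈ G, p : ℕ) : ℝ) := by
          exact_mod_cast Finset.prod_pos fun p hp => (hGp p hp).pos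
        have hr1 : (1 : ℝ) ≤ ((∏ p ∈ G, p : ℕ) : ℝ) := by
          exact_mod_cast Nat.succ_le_of_lt (Finset.prod_pos fun p hp => (hGp p hp).pos)
        have he0 : (0 : ℝ) < ((∏ p ∈ G, p ^ (n.factorization p - 1) : ℕ) : ℝ) := by
          exact_mod_cast Finset.prod_pos fun p hp => pow_pos (hGp p hp).pos _
        have hqe : ((∏ p ∈ G, p ^ n.factorization p : ℕ) : ℝ) =
            ((∏ p ∈ G, p : ℕ) : ℝ) * ((∏ p ∈ G, p ^ (n.factorization p - 1) : ℕ) : ℝ) := by
          rw [← Nat.cast_mul, ← Finset.prod_mul_distrib]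
          congr 1
          apply Finset.prod_congr rfl
          intro p hp
          have h3 := (hSm p (hGS hp)).2.1
          rw [← pow_succ', Nat.sub_add_cancel (by omega)]
        have b0 : 0 ≤ lg X ((∏ p ∈ G, p : ℕ) : ℝ) := lg_nonneg hX hr1
        have b1 : lg X ((∏ p ∈ G, p : ℕ) : ℝ) ≤ 20 * k := by
          refine (lg_le hX hr0).1 (hG2.trans (le_of_eq ?_))
          rw [← Real.rpow_add hX0]
          congr 1
          ring
        have b2 : 10 * k ≤ lg X ((∏ p ∈ G, p ^ (n.factorization p - 1) : ℕ) : ℝ) :=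
          (le_lg hX he0).1 hG1
        have b3 := congrArg (lg X) hqe
        rw [lg_mul hr0 he0] at b3
        apply good hX h4 hr0 (by exact_mod_cast hq0)
        · linarith
        · linarith
        · linarith
        · linarith

end Pool.Agent.H20.AG3
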