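import Pool.Agent.H20.AG3.Targets

/-! G1: for 100 percent of all triples the height is at most the power `1 / 3 + ε` of the
radical. -/

set_option autoImplicit false

open Pool.Agent.H38.RB Pool.Agent.H38.PS Pool.Agent.H82.RD Pool.Agent.H38.AE Pool.Agent.H38.AG

namespace Pool.Agent.H20.AG3

theorem pf_G1 (hG : T_GGG) (hR : T_RD1) (hT : T_TFI) (hM : T_MD) : T_G1 := by
  intro ε hε
  obtain ⟨k, hkdef⟩ : ∃ k : ℝ, k = min ε 1 / 1000 := ⟨_, rfl⟩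
  have hk : 0 < k := by rw [hkdef]; positivity
  have hk1 : k ≤ 1 / 1000 := by
    rw [hkdef]
    have := min_le_right ε 1
    linarith
  have hkε : 1000 * k ≤ ε := by
    rw [hkdef]
    have := min_le_left ε 1
    linarith
  obtain ⟨c1, C1, hc1, hC1, h1⟩ := hG
  obtain ⟨C2, hC2, h2⟩ := hT (100 * k / 3) (by positivity)
  obtain ⟨c3, C3, hc3, hC3, h3⟩ := hR k hk
  obtain ⟨C4, hC4, h4⟩ := hM k hk hk1
  obtain ⟨c, hcdef⟩ : ∃ c, c = min (min c1 c3) k := ⟨_, rfl⟩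
  have hc0 : 0 < c := by rw [hcdef]; positivity
  have hcc1 : c ≤ c1 := by rw [hcdef]; exact (min_le_left _ _).trans (min_le_left _ _)
  have hcc3 : c ≤ c3 := by rw [hcdef]; exact (min_le_left _ _).trans (min_le_right _ _)
  have hck : c ≤ k := by rw [hcdef]; exact min_le_right _ _
  refine ⟨c, C1 + C2 + C3 + C4, hc0, by positivity, ?_⟩
  intro X hX
  have hX0 : 0 < X := by linarith
  obtain ⟨f1, n1⟩ := h1 X hX
  obtain ⟨f2, n2⟩ := h2 (X ^ (1 - 100 * k)) (Real.one_le_rpow hX (by linarith))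
  obtain ⟨f3, n3⟩ := h3 X hX
  obtain ⟨f4, n4⟩ := h4 X hX
  obtain ⟨A1, hA1⟩ : ∃ A, A = {x | Adm x ∧ (pd (pr x).primeFactors : ℝ) ≤ X ∧
    pd (pr x).primeFactors < ht x} := ⟨_, rfl⟩
  obtain ⟨A2, hA2⟩ : ∃ A, A = {x | Adm x ∧ (pd (pr x).primeFactors : ℝ) ≤
    X ^ (1 - 100 * k)} := ⟨_, rfl⟩
  obtain ⟨A3, hA3⟩ : ∃ A, A = {x | Adm x ∧ (pd (pr x).primeFactors : ℝ) ≤ X ∧
    ∃ i, (pd (x i).natAbs.primeFactors : ℝ) ≤ X ^ (1 / 3 - k)} := ⟨_, rfl⟩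
  rw [← hA1] at f1 n1
  rw [← hA2] at f2 n2
  rw [← hA3] at f3 n3
  have hsub : {x | Adm x ∧ (pd (pr x).primeFactors : ℝ) ≤ X ∧
      (pd (pr x).primeFactors : ℝ) ^ (1 / 3 + ε) < (ht x : ℝ)} ⊆ A1 ∪ A2 ∪ A3 ∪ Mid X k := by
    rintro x ⟨hA, hr, hh⟩
    by_cases g1 : pd (pr x).primeFactors < ht x
    · exact Or.inl (Or.inl (Or.inl (by rw [hA1]; exact ⟨hA, hr, g1⟩)))
    by_cases g2 : (pd (pr x).primeFactors : ℝ) ≤ X ^ (1 - 100 * k)
    · exact Or.inl (Or.inl (Or.inr (by rw [hA2]; exact ⟨hA, g2⟩)))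
    by_cases g3 : ∃ i, (pd (x i).natAbs.primeFactors : ℝ) ≤ X ^ (1 / 3 - k)
    · exact Or.inl (Or.inr (by rw [hA3]; exact ⟨hA, hr, g3⟩))
    right
    push Not at g1 g2 g3
    refine ⟨hA, hr, fun i => (g3 i).le, ?_, ?_⟩
    · refine le_trans ?_ hh.le
      have hone : 1 ≤ X ^ (1 - 100 * k) := Real.one_le_rpow hX (by linarith)
      calc X ^ (1 / 3 + 100 * k) ≤ X ^ ((1 - 100 * k) * (1 / 3 + 1000 * k)) :=
            Real.rpow_le_rpow_of_exponent_le hX (by nlinarith)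
        _ = (X ^ (1 - 100 * k)) ^ (1 / 3 + 1000 * k) := Real.rpow_mul hX0.le _ _
        _ ≤ (X ^ (1 - 100 * k)) ^ (1 / 3 + ε) :=
            Real.rpow_le_rpow_of_exponent_le hone (by linarith)
        _ ≤ (pd (pr x).primeFactors : ℝ) ^ (1 / 3 + ε) :=
            Real.rpow_le_rpow (by positivity) g2.le (by positivity)
    · exact le_trans (by exact_mod_cast g1) hr
  have hfin : (A1 ∪ A2 ∪ A3 ∪ Mid X k).Finite := ((f1.union f2).union f3).union f4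
  refine ⟨hfin.subset hsub, ?_⟩
  have hcard : ((A1 ∪ A2 ∪ A3 ∪ Mid X k).ncard : ℝ) ≤
      A1.ncard + A2.ncard + A3.ncard + (Mid X k).ncard := by
    have hu := (Set.ncard_union_le (A1 ∪ A2 ∪ A3) (Mid X k)).trans
      (Nat.add_le_add_right ((Set.ncard_union_le _ _).trans
        (Nat.add_le_add_right (Set.ncard_union_le _ _) _)) _)
    exact_mod_cast hu
  have hle := Set.ncard_le_ncard hsub hfin
  have hle' : (({x | Adm x ∧ (pd (pr x).primeFactors : ℝ) ≤ X ∧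
      (pd (pr x).primeFactors : ℝ) ^ (1 / 3 + ε) < (ht x : ℝ)} : Set (Fin 3 → ℤ)).ncard : ℝ) ≤
      ((A1 ∪ A2 ∪ A3 ∪ Mid X k).ncard : ℝ) := by exact_mod_cast hle
  have e1 : X ^ (2 / 3 - c1) ≤ X ^ (2 / 3 - c) :=
    Real.rpow_le_rpow_of_exponent_le hX (by linarith)
  have e2 : (X ^ (1 - 100 * k)) ^ (2 / 3 + 100 * k / 3) ≤ X ^ (2 / 3 - c) := by
    rw [← Real.rpow_mul hX0.le]
    exact Real.rpow_le_rpow_of_exponent_le hX (by nlinarith)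
  have e3 : X ^ (2 / 3 - c3) ≤ X ^ (2 / 3 - c) :=
    Real.rpow_le_rpow_of_exponent_le hX (by linarith)
  have e4 : X ^ (2 / 3 - k) ≤ X ^ (2 / 3 - c) :=
    Real.rpow_le_rpow_of_exponent_le hX (by linarith)
  have b1 := mul_le_mul_of_nonneg_left e1 hC1.le
  have b2 := mul_le_mul_of_nonneg_left e2 hC2.le
  have b3 := mul_le_mul_of_nonneg_left e3 hC3.le
  have b4 := mul_le_mul_of_nonneg_left e4 hC4.le
  calc _ ≤ ((A1 ∪ A2 ∪ A3 ∪ Mid X k).ncard : ℝ) := hle'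
    _ ≤ A1.ncard + A2.ncard + A3.ncard + (Mid X k).ncard := hcard
    _ ≤ (C1 + C2 + C3 + C4) * X ^ (2 / 3 - c) := by linarith

end Pool.Agent.H20.AG3
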