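import Pool.Agent.H20.AG3.CW
import Pool.Agent.H31.AE.L

/-! MD: few triples of moderate height. -/

set_option autoImplicit false

open Pool.Agent.H38.RB Pool.Agent.H38.PS Pool.Agent.H82.RD Pool.Agent.H38.AE Pool.Agent.H23.AF

namespace Pool.Agent.H20.AG3

theorem inj_map : Function.Injective (fun x : Fin 3 → ℤ => (x 0, x 1, x 2)) := by
  intro x y hxy
  simp only [Prod.mk.injEq] at hxy
  funext i
  fin_cases i
  · exact hxy.1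
  · exact hxy.2.1
  · exact hxy.2.2

theorem pf_MD (hJE : T_JE) (hJJ : T_JJ) : T_MD := by
  intro k hk hk1
  obtain ⟨C1, hC1, h1⟩ := hJE k hk
  obtain ⟨C2, hC2, h2⟩ := hJJ 3 k hk
  obtain ⟨X1, hX1⟩ : ∃ X1 : ℝ, X1 = (4 : ℝ) ^ (1 / k) := ⟨_, rfl⟩
  refine ⟨6 * (C1 + C2) + (Tri ⌊X1⌋₊).ncard, by positivity, ?_⟩
  intro X hX
  have hX0 : 0 < X := by linarith
  have hfT : ∀ N : ℕ, (Tri N).Finite := Pool.Agent.H31.AE.tri_finite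
  have hfin : (Mid X k).Finite :=
    Set.Finite.of_injOn (f := fun x : Fin 3 → ℤ => (x 0, x 1, x 2)) (mid_sub_tri X k)
      inj_map.injOn (hfT ⌊X⌋₊)
  refine ⟨hfin, ?_⟩
  have hN0 : (0 : ℝ) ≤ ((Tri ⌊X1⌋₊).ncard : ℝ) := Nat.cast_nonneg _
  rcases lt_or_ge (X ^ k) 4 with h4 | h4
  · have hle : X ≤ X1 := by
      rw [hX1]
      calc X = (X ^ k) ^ (1 / k) := by
            rw [← Real.rpow_mul hX0.le, mul_one_div_cancel hk.ne', Real.rpow_one]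
        _ ≤ (4 : ℝ) ^ (1 / k) := Real.rpow_le_rpow (by positivity) h4.le (by positivity)
    have hsub : Tri ⌊X⌋₊ ⊆ Tri ⌊X1⌋₊ := by
      rintro t ⟨a1, a2, a3, a4, a5, a6, a7, a8, a9, a10⟩
      have hfl : (⌊X⌋₊ : ℤ) ≤ ⌊X1⌋₊ := by exact_mod_cast Nat.floor_le_floor hle
      exact ⟨a1, a2, a3, a4, a5, a6, a7, a8.trans hfl, a9.trans hfl, a10.trans hfl⟩
    have hc : (Mid X k).ncard ≤ (Tri ⌊X1⌋₊).ncard :=
      Set.ncard_le_ncard_of_injOn (fun x : Fin 3 → ℤ => (x 0, x 1, x 2))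
        (fun x hx => hsub (mid_sub_tri X k x hx)) inj_map.injOn (hfT ⌊X1⌋₊)
    have hc' : ((Mid X k).ncard : ℝ) ≤ ((Tri ⌊X1⌋₊).ncard : ℝ) := by exact_mod_cast hc
    have hone : 1 ≤ X ^ (2 / 3 - k) := Real.one_le_rpow hX (by linarith)
    calc ((Mid X k).ncard : ℝ) ≤ ((Tri ⌊X1⌋₊).ncard : ℝ) := hc'
      _ ≤ 6 * (C1 + C2) + ((Tri ⌊X1⌋₊).ncard : ℝ) := by linarith
      _ = (6 * (C1 + C2) + ((Tri ⌊X1⌋₊).ncard : ℝ)) * 1 := (mul_one _).symm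
      _ ≤ (6 * (C1 + C2) + ((Tri ⌊X1⌋₊).ncard : ℝ)) * X ^ (2 / 3 - k) :=
          mul_le_mul_of_nonneg_left hone (by positivity)
  · have hX1' : 1 < X := by
      by_contra hcon
      push Not at hcon
      have h5 : X = 1 := le_antisymm hcon hX
      rw [h5, Real.one_rpow] at h4
      norm_num at h4
    have hH : 1 ≤ ⌊X⌋₊ := Nat.le_floor (by exact_mod_cast hX)
    have hHX : ((⌊X⌋₊ : ℕ) : ℝ) ≤ X := Nat.floor_le hX0.le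
    have hZ : 0 ≤ X ^ (2 / 3 - 2 * k) := by positivity
    have a1 := h1 ⌊X⌋₊ _ hH hZ
    have a2 := h2 ⌊X⌋₊ _ hH hZ
    have hfU : (SE2 ⌊X⌋₊ (X ^ (2 / 3 - 2 * k)) ∪ SJ2 ⌊X⌋₊ (X ^ (2 / 3 - 2 * k)) 3).Finite :=
      (hfT ⌊X⌋₊).subset (by rintro t (h | h) <;> exact h.1)
    have h6 := Pool.Agent.H31.AE.per_card ((fun x : Fin 3 → ℤ => (x 0, x 1, x 2)) '' (Mid X k)) _
      hfU (by
        rintro t ⟨x, hx, rfl⟩
        exact pf_CV X k x hX1' hk hk1 h4 hx)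
    rw [Set.ncard_image_of_injective _ inj_map] at h6
    have h7 := Set.ncard_union_le (SE2 ⌊X⌋₊ (X ^ (2 / 3 - 2 * k)))
      (SJ2 ⌊X⌋₊ (X ^ (2 / 3 - 2 * k)) 3)
    have h8 : ((Mid X k).ncard : ℝ) ≤ 6 * (((SE2 ⌊X⌋₊ (X ^ (2 / 3 - 2 * k))).ncard : ℝ) +
        ((SJ2 ⌊X⌋₊ (X ^ (2 / 3 - 2 * k)) 3).ncard : ℝ)) := by
      exact_mod_cast h6.trans (Nat.mul_le_mul_left 6 h7)
    have e1 : ((⌊X⌋₊ : ℕ) : ℝ) ^ k * X ^ (2 / 3 - 2 * k) ≤ X ^ (2 / 3 - k) := by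
      calc ((⌊X⌋₊ : ℕ) : ℝ) ^ k * X ^ (2 / 3 - 2 * k) ≤ X ^ k * X ^ (2 / 3 - 2 * k) :=
            mul_le_mul_of_nonneg_right (Real.rpow_le_rpow (Nat.cast_nonneg _) hHX hk.le) hZ
        _ = X ^ (2 / 3 - k) := by
            rw [← Real.rpow_add hX0]
            congr 1
            ring
    have b1 := mul_le_mul_of_nonneg_left e1 hC1.le
    have b2 := mul_le_mul_of_nonneg_left e1 hC2.le
    have hpos : 0 ≤ ((Tri ⌊X1⌋₊).ncard : ℝ) * X ^ (2 / 3 - k) := by positivity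
    calc ((Mid X k).ncard : ℝ) ≤ _ := h8
      _ ≤ (6 * (C1 + C2) + ((Tri ⌊X1⌋₊).ncard : ℝ)) * X ^ (2 / 3 - k) := by
        nlinarith [a1, a2, b1, b2, hpos]

end Pool.Agent.H20.AG3
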