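import Pool.Agent.H20.AG3.Targets

/-! NW: the size of the energy in terms of logarithms. -/

set_option autoImplicit false

open Pool.Agent.H38.RB Pool.Agent.H38.PS Pool.Agent.H82.RD Pool.Agent.H38.AE

namespace Pool.Agent.H20.AG3

theorem pf_NW : T_NW := by
  intro X u ρ θ z hX h1 h2 h3 h4
  have hX0 : 0 < X := by linarith
  have key : ∀ t : ℝ, t ≤ z → X ^ t ≤ X ^ z := fun t ht => Real.rpow_le_rpow_of_exponent_le hX ht
  have e2 : X ^ u / X ^ θ = X ^ (u - θ) := (Real.rpow_sub hX0 u θ).symm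
  have e3 : (X ^ u) ^ ((4 : ℝ) / 5) / (X ^ θ) ^ ((3 : ℝ) / 5) = X ^ (4 / 5 * u - 3 / 5 * θ) := by
    rw [← Real.rpow_mul hX0.le, ← Real.rpow_mul hX0.le, ← Real.rpow_sub hX0]
    congr 1
    ring
  have e4 : ((X ^ u) ^ 2 / X ^ θ) ^ ((1 : ℝ) / 5) = X ^ (2 / 5 * u - 1 / 5 * θ) := by
    rw [← Real.rpow_natCast (X ^ u) 2, ← Real.rpow_mul hX0.le, ← Real.rpow_sub hX0,
      ← Real.rpow_mul hX0.le]
    congr 1
    push_cast
    ring
  unfold Pool.Agent.H23.AF.w5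
  rw [e2, e3, e4]
  have f1 : X ^ ρ * X ^ u = X ^ (ρ + u) := (Real.rpow_add hX0 _ _).symm
  have f2 : X ^ ρ * X ^ u * X ^ (u - θ) = X ^ (ρ + 2 * u - θ) := by
    rw [← Real.rpow_add hX0, ← Real.rpow_add hX0]
    congr 1
    ring
  have f3 : X ^ ρ * X ^ u * X ^ (4 / 5 * u - 3 / 5 * θ) = X ^ (ρ + 9 / 5 * u - 3 / 5 * θ) := by
    rw [← Real.rpow_add hX0, ← Real.rpow_add hX0]
    congr 1
    ring
  have f4 : X ^ ρ * X ^ u * X ^ (2 / 5 * u - 1 / 5 * θ) = X ^ (ρ + 7 / 5 * u - 1 / 5 * θ) := by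
    rw [← Real.rpow_add hX0, ← Real.rpow_add hX0]
    congr 1
    ring
  calc X ^ ρ * (X ^ u * (1 + X ^ (u - θ) + X ^ (4 / 5 * u - 3 / 5 * θ) +
        X ^ (2 / 5 * u - 1 / 5 * θ)))
      = X ^ ρ * X ^ u + X ^ ρ * X ^ u * X ^ (u - θ) +
        X ^ ρ * X ^ u * X ^ (4 / 5 * u - 3 / 5 * θ) +
        X ^ ρ * X ^ u * X ^ (2 / 5 * u - 1 / 5 * θ) := by ring
    _ ≤ 4 * X ^ z := by
        rw [f2, f3, f4, f1]
        have a1 := key _ h1
        have a2 := key _ h2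
        have a3 := key _ h3
        have a4 := key _ h4
        linarith

end Pool.Agent.H20.AG3
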