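import Mathlib
import Pool.Agent.H38.AG.Targets
import Pool.Agent.H23.AF.Targets

/-!
# The exponent `1 / 3 + ε` for 100 percent of all triples ordered by radical (MP_7ecdd4_nt, n = 3)
-/

set_option autoImplicit false

open Pool.Agent.H38.RB Pool.Agent.H38.PS Pool.Agent.H82.RD Pool.Agent.H38.AE

namespace Pool.Agent.H20.AG3

/-- The triples of moderate height with radicals near `X ^ (1 / 3)`. -/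
def Mid (X k : ℝ) : Set (Fin 3 → ℤ) :=
  {x | Adm x ∧ (pd (pr x).primeFactors : ℝ) ≤ X ∧
    (∀ i, X ^ (1 / 3 - k) ≤ (pd (x i).natAbs.primeFactors : ℝ)) ∧
    X ^ (1 / 3 + 100 * k) ≤ (ht x : ℝ) ∧ (ht x : ℝ) ≤ X}

/-- NW: the size of the energy in terms of logarithms. -/
def T_NW : Prop := ∀ (X u ρ θ z : ℝ), 1 ≤ X → ρ + u ≤ z → ρ + 2 * u - θ ≤ z →
  ρ + 9 / 5 * u - 3 / 5 * θ ≤ z → ρ + 7 / 5 * u - 1 / 5 * θ ≤ z →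
  X ^ ρ * Pool.Agent.H23.AF.w5 (X ^ θ) (X ^ u) ≤ 4 * X ^ z

/-- EN: the structure of one entry. -/
def T_EN : Prop := ∀ (X k : ℝ) (n : ℕ), 1 < X → 0 < k → k ≤ 1 / 1000 → 4 ≤ X ^ k → 1 ≤ n →
  (rad n : ℝ) ≤ X ^ (1 / 3 + 2 * k) →
  (n : ℝ) ≤ X ^ (1 / 3 + 12 * k) ∨
  (∃ q : ℕ, 1 ≤ q ∧ q ∣ n ∧
    (rad q : ℝ) * Pool.Agent.H23.AF.w5 q (X ^ (1 / 3 + 2 * k)) ≤ X ^ (2 / 3 - 2 * k)) ∨
  ∃ p v m : ℕ, p.Prime ∧ 2 ≤ v ∧ n = p ^ v * m ∧ X ^ (1 / 3 - 10 * k) ≤ (p : ℝ) ∧ ¬ p ∣ m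

/-- CV: covering. -/
def T_CV : Prop := ∀ (X k : ℝ) (x : Fin 3 → ℤ), 1 < X → 0 < k → k ≤ 1 / 1000 → 4 ≤ X ^ k →
  x ∈ Mid X k →
  ∃ a b c : ℤ, (a, b, c) ∈ Pool.Agent.H23.AF.SE2 ⌊X⌋₊ (X ^ (2 / 3 - 2 * k)) ∪
      Pool.Agent.H23.AF.SJ2 ⌊X⌋₊ (X ^ (2 / 3 - 2 * k)) 3 ∧
    ((x 0, x 1, x 2) = (a, b, c) ∨ (x 0, x 1, x 2) = (a, c, b) ∨ (x 0, x 1, x 2) = (b, a, c) ∨
      (x 0, x 1, x 2) = (b, c, a) ∨ (x 0, x 1, x 2) = (c, a, b) ∨ (x 0, x 1, x 2) = (c, b, a))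

/-- MD: few triples of moderate height. -/
def T_MD : Prop := ∀ k : ℝ, 0 < k → k ≤ 1 / 1000 → ∃ C : ℝ, 0 < C ∧ ∀ X : ℝ, 1 ≤ X →
  (Mid X k).Finite ∧ ((Mid X k).ncard : ℝ) ≤ C * X ^ (2 / 3 - k)

/-- G1: for 100 percent of all triples the height is at most the power `1 / 3 + ε` of the
radical. -/
def T_G1 : Prop := ∀ ε : ℝ, 0 < ε → ∃ c C : ℝ, 0 < c ∧ 0 < C ∧ ∀ X : ℝ, 1 ≤ X →
  {x | Adm x ∧ (pd (pr x).primeFactors : ℝ) ≤ X ∧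
    (pd (pr x).primeFactors : ℝ) ^ (1 / 3 + ε) < (ht x : ℝ)}.Finite ∧
  ({x | Adm x ∧ (pd (pr x).primeFactors : ℝ) ≤ X ∧
    (pd (pr x).primeFactors : ℝ) ^ (1 / 3 + ε) < (ht x : ℝ)}.ncard : ℝ) ≤ C * X ^ (2 / 3 - c)

end Pool.Agent.H20.AG3
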